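import Pool.Agent.K3h75.ND.Stm

/-!
# Project ND of helper75, brick GM: good modules for smooth hypersurfaces with nodal reductions
-/

set_option autoImplicit false
set_option linter.unusedSectionVars false

open scoped Pointwise

namespace Pool.Agent.K3h45.ND

open MvPolynomial Pool.Agent.H918R2.Quad Pool.Agent.H945R2.E Pool.Agent.TH214.RM
open Pool.Agent.W418 Pool.Agent.K3h75.ND

/-- **Brick GM.** -/
theorem t_GM (hL : S_LMN) : S_GM := by
  intro O K F _ _ _ _ _ _ _ _ _ n H d hd hHd hH0 hsm hnod x hx0 hrel hgen b htb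
  classical
  have hOK : Function.Injective (algebraMap O K) := IsFractionRing.injective O K
  have hspan : Ideal.span (Set.range fun j => pderiv j (map (algebraMap O K) H)) =
      Ideal.span (map (algebraMap O K) '' (Set.range fun j => pderiv j H)) := by
    congr 1
    ext y
    constructor
    · rintro ⟨j, rfl⟩
      exact ⟨_, ⟨j, rfl⟩, (pderiv_map).symm⟩
    · rintro ⟨_, ⟨j, rfl⟩, rfl⟩
      exact ⟨j, pderiv_map⟩
  have hex : ∀ i, ∃ c : O, c ≠ 0 ∧ ∃ k : ℕ,
      C c * X i ^ k ∈ Ideal.span (Set.range fun j => pderiv j H) := by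
    intro i
    obtain ⟨k, hk⟩ := hsm i
    rw [hspan] at hk
    obtain ⟨c, hc, y, hy, hyc⟩ := clear_span (R := K) (nonZeroDivisors O) _ _ hk
    refine ⟨c, nonZeroDivisors.ne_zero hc, k, ?_⟩
    have h1 : y = C c * X i ^ k := by
      apply map_injective _ hOK
      rw [hyc, map_mul, map_C, map_pow, map_X]
    rwa [← h1]
  choose c hc k hk using hex
  have hc0 : ∏ i, c i ≠ 0 := by
    rw [Finset.prod_ne_zero_iff]
    exact fun i _ => hc i
  have hDspan : Ideal.span {∏ i, c i} ≠ ⊥ := by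
    rw [Ne, Ideal.span_singleton_eq_bot]
    exact hc0
  let S : Finset (Ideal O) :=
    (UniqueFactorizationMonoid.normalizedFactors (Ideal.span {∏ i, c i})).toFinset
  have hS : ∀ 𝔭, 𝔭 ∈ S ↔ 𝔭.IsPrime ∧ ∏ i, c i ∈ 𝔭 := by
    intro 𝔭
    rw [Multiset.mem_toFinset, Ideal.mem_normalizedFactors_iff hDspan,
      Ideal.span_singleton_le_iff_mem]
  have hS0 : ∀ 𝔭 ∈ S, 𝔭 ≠ ⊥ := by
    intro 𝔭 h𝔭 h
    have h1 := ((hS 𝔭).1 h𝔭).2
    rw [h] at h1
    exact hc0 h1
  refine goodModule_of_loc (K := K) x hx0 S (fun 𝔭 h𝔭 =>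
    ⟨Ideal.IsPrime.isMaximal ((hS 𝔭).1 h𝔭).1 (hS0 𝔭 h𝔭), hS0 𝔭 h𝔭⟩) ?_ ?_
  · intro 𝔭 h𝔭
    have hpp := ((hS 𝔭).1 h𝔭).1
    have h0 := hS0 𝔭 h𝔭
    let R := Localization.subalgebra.ofField K 𝔭.primeCompl 𝔭.primeCompl_le_nonZeroDivisors
    have : IsLocalization.AtPrime R 𝔭 := Localization.subalgebra.isLocalization_ofField K _ _
    have : IsFractionRing R K := Localization.subalgebra.isFractionRing_ofField K _ _
    have : IsDiscreteValuationRing R :=
      IsLocalization.AtPrime.isDiscreteValuationRing_of_dedekind_domain O h0 R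
    have : IsScalarTower O R F := IsScalarTower.of_algebraMap_eq fun r => by
      rw [IsScalarTower.algebraMap_apply O K F]; rfl
    have : IsScalarTower R K F := IsScalarTower.of_algebraMap_eq fun r => rfl
    refine hL O R K F 𝔭 n H d hd hHd hH0 (hnod 𝔭 hpp h0) (∏ i, c i) hc0 ?_ x hx0 hrel hgen b htb
    intro i
    refine ⟨k i, ?_⟩
    have h1 : ∏ j, c j = (∏ j ∈ Finset.univ.erase i, c j) * c i :=
      (Finset.prod_erase_mul _ _ (Finset.mem_univ i)).symm
    rw [h1, C_mul, mul_assoc]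
    exact Ideal.mul_mem_left _ _ (hk i)
  · intro 𝔭 hpp h𝔭 D hD M hM hM2
    have hprod : ∏ i, c i ∉ 𝔭 := fun h => h𝔭 ((hS 𝔭).2 ⟨hpp, h⟩)
    have hcp : ∀ i, c i ∉ 𝔭 := fun i h => hprod
      (Ideal.mem_of_dvd 𝔭 (Finset.dvd_prod_of_mem c (Finset.mem_univ i)) h)
    refine regAt_of_crit (K := K) 𝔭 H hH0 d hHd
      (crit_of_smooth 𝔭 H d hHd fun i => ⟨c i, hcp i, k i, hk i⟩) x hx0 hgen b htb x
      (fun i j => if i = j then 1 else 0) ?_ hrel D hD M hM hM2
    intro i
    simp only [apply_ite (algebraMap K F), map_one, map_zero, ite_mul, one_mul, zero_mul,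
      Finset.sum_ite_eq, Finset.mem_univ, if_true]

end Pool.Agent.K3h45.ND
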